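import Pool.Agent.Q62.MS.Stm

set_option autoImplicit false

/-! Project MS, jobs PAI and AVO (helper25) -/

open Set Filter Topology Metric

namespace Pool.Agent.Q25.MS

open Pool.Agent.Q62.MS

/-- a convex combination of `-b` and `c` is not a nonnegative multiple of `b` -/
lemma seg_ne {E : Type} [NormedAddCommGroup E] [InnerProductSpace ℝ E] (b c : E) (hb : ‖b‖ = 1)
    (hc : ‖c‖ = 1) (δ : ℝ) (h0 : 0 ≤ δ) (h1 : δ ≤ 1) (h : b ≠ c ∨ δ = 0) (r : ℝ) (hr : 0 ≤ r) :
    (1 - δ) • (-b) + δ • c ≠ r • b := by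
  intro e
  have e1 : δ • c = (r + (1 - δ)) • b := by
    rw [add_smul, ← e, smul_neg]; abel
  have e2 : δ = r + (1 - δ) := by
    have := congrArg norm e1
    rw [norm_smul, norm_smul, hb, hc, mul_one, mul_one, Real.norm_of_nonneg h0,
      Real.norm_of_nonneg (by linarith)] at this
    exact this
  rcases h with h | h
  · have hδ : δ ≠ 0 := by intro h; linarith
    rw [← e2] at e1
    exact h (smul_right_injective E hδ e1).symm
  · linarith

/-- normalisation -/
noncomputable def nz {E : Type} [NormedAddCommGroup E] [InnerProductSpace ℝ E] (v : E) : E :=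
  ‖v‖⁻¹ • v

lemma nz_norm {E : Type} [NormedAddCommGroup E] [InnerProductSpace ℝ E] {v : E} (hv : v ≠ 0) :
    ‖nz v‖ = 1 := by
  rw [nz, norm_smul, norm_inv, norm_norm, inv_mul_cancel₀ (norm_ne_zero_iff.2 hv)]

lemma nz_of_norm {E : Type} [NormedAddCommGroup E] [InnerProductSpace ℝ E] {v : E} (hv : ‖v‖ = 1) :
    nz v = v := by
  rw [nz, hv, inv_one, one_smul]

lemma nz_ne {E : Type} [NormedAddCommGroup E] [InnerProductSpace ℝ E] {v b : E}
    (h : ∀ r : ℝ, 0 ≤ r → v ≠ r • b) : v ≠ 0 ∧ nz v ≠ b := by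
  have h0 : v ≠ 0 := by
    have := h 0 le_rfl
    rwa [zero_smul] at this
  refine ⟨h0, fun e => h ‖v‖ (norm_nonneg _) ?_⟩
  rw [← e, nz, smul_smul, mul_inv_cancel₀ (norm_ne_zero_iff.2 h0), one_smul]

lemma nz_cont {E : Type} [NormedAddCommGroup E] [InnerProductSpace ℝ E] (v : ℝ → E)
    (hv : Continuous v) (h : ∀ t, v t ≠ 0) : Continuous (fun t => nz (v t)) := by
  unfold nz
  exact (hv.norm.inv₀ fun t => norm_ne_zero_iff.2 (h t)).smul hv

theorem t_PAI : S_PAI := by
  intro d hd a b c ha hb hc hbc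
  have hrank : 1 < Module.rank ℝ (EE d) := by
    rw [← Module.finrank_eq_rank, finrank_euclideanSpace_fin]
    exact_mod_cast hd
  obtain ⟨γ, hγ⟩ := (isPathConnected_sphere hrank (0 : EE d) zero_le_one).joinedIn a
    (by simpa using ha) b (by simpa using hb)
  have hγn : ∀ t : ℝ, ‖γ.extend t‖ = 1 := by
    intro t
    have := hγ (projIcc 0 1 zero_le_one t)
    rw [mem_sphere_zero_iff_norm] at this
    exact this
  let δ : ℝ → ℝ := fun t => max 0 (min 1 (2 * t - 1))
  have hδc : Continuous δ := by simp only [δ]; fun_prop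
  have hδ0 : ∀ t, 0 ≤ δ t := fun t => le_max_left _ _
  have hδ1 : ∀ t, δ t ≤ 1 := fun t => max_le zero_le_one (min_le_left _ _)
  have hγ2 : Continuous fun t : ℝ => γ.extend (2 * t) := γ.continuous_extend.comp (by fun_prop)
  let v : ℝ → EE d := fun t => (1 - δ t) • (-(γ.extend (2 * t))) + δ t • c
  have hvc : Continuous v := by
    simp only [v]
    exact ((continuous_const.sub hδc).smul hγ2.neg).add (hδc.smul continuous_const)
  have hv : ∀ t, v t ≠ 0 ∧ nz (v t) ≠ γ.extend (2 * t) := by
    intro t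
    refine nz_ne fun r hr => ?_
    refine seg_ne _ _ (hγn _) hc (δ t) (hδ0 t) (hδ1 t) ?_ r hr
    rcases le_total t (1 / 2) with h | h
    · right
      simp only [δ]
      refine max_eq_left (le_trans (min_le_right _ _) (by linarith))
    · left
      rw [γ.extend_of_one_le (by linarith)]
      exact hbc
  refine ⟨fun t => γ.extend (2 * t), fun t => nz (v t), hγ2, nz_cont v hvc fun t => (hv t).1,
    fun t => ⟨hγn _, nz_norm (hv t).1, (hv t).2.symm⟩, ?_, ?_, ?_, ?_⟩
  · simp
  · have : v 0 = -a := by simp [v, δ]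
    change nz (v 0) = -a
    rw [this, nz_of_norm (by rw [norm_neg]; exact ha)]
  · simp only
    rw [γ.extend_of_one_le (by norm_num)]
  · have : v 1 = c := by
      simp only [v, δ]
      norm_num
    change nz (v 1) = c
    rw [this, nz_of_norm hc]

theorem t_AVO : S_AVO := by
  intro d hd x y w hx hy hw hxw hyw
  let α : ℝ → ℝ := fun t => max 0 (min 1 (1 - 2 * t))
  let κ : ℝ → ℝ := fun t => max 0 (min 1 (2 * t - 1))
  have hαc : Continuous α := by simp only [α]; fun_prop
  have hκc : Continuous κ := by simp only [κ]; fun_prop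
  have hα0 : ∀ t, 0 ≤ α t := fun t => le_max_left _ _
  have hα1 : ∀ t, α t ≤ 1 := fun t => max_le zero_le_one (min_le_left _ _)
  have hκ0 : ∀ t, 0 ≤ κ t := fun t => le_max_left _ _
  have hκ1 : ∀ t, κ t ≤ 1 := fun t => max_le zero_le_one (min_le_left _ _)
  let v : ℝ → EE d := fun t => (1 - α t - κ t) • (-w) + α t • x + κ t • y
  have hvc : Continuous v := by
    simp only [v]
    exact ((((continuous_const.sub hαc).sub hκc).smul continuous_const).add
      (hαc.smul continuous_const)).add (hκc.smul continuous_const)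
  have hv : ∀ t, v t ≠ 0 ∧ nz (v t) ≠ w := by
    intro t
    refine nz_ne fun r hr => ?_
    rcases le_total t (1 / 2) with h | h
    · have hk : κ t = 0 := max_eq_left (le_trans (min_le_right _ _) (by linarith))
      simp only [v, hk, sub_zero, zero_smul, add_zero]
      exact seg_ne w x hw hx (α t) (hα0 t) (hα1 t) (Or.inl hxw.symm) r hr
    · have hk : α t = 0 := max_eq_left (le_trans (min_le_right _ _) (by linarith))
      simp only [v, hk, sub_zero, zero_smul, add_zero]
      exact seg_ne w y hw hy (κ t) (hκ0 t) (hκ1 t) (Or.inl hyw.symm) r hr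
  refine ⟨fun t => nz (v t), nz_cont v hvc fun t => (hv t).1,
    fun t => ⟨nz_norm (hv t).1, (hv t).2⟩, ?_, ?_⟩
  · have : v 0 = x := by
      simp only [v, α, κ]
      norm_num
    simp only
    rw [this, nz_of_norm hx]
  · have : v 1 = y := by
      simp only [v, α, κ]
      norm_num
    simp only
    rw [this, nz_of_norm hy]

end Pool.Agent.Q25.MS
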