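import Pool.Agent.Q62.MS.Stm

set_option autoImplicit false

/-! Project MS, job RAD (helper25) -/

open Set Filter Topology Metric

universe u

namespace Pool.Agent.Q25.MS

open Pool.Agent.Q62.MS

lemma aux (D S κ η n X Y Z : ℝ) (hD : 0 < D) (hS : 0 < S) (hκ : 0 < κ) (hκ1 : κ ≤ 1)
    (hη : 0 < η) (hη2 : η ≤ κ ^ 2 / 4) (hn : κ ≤ n) (c1 : -(1 / 2 * (η * S)) ≤ X)
    (c2 : -(η * D * (1 / 2)) ≤ Y) (c3 : -(η * D * (η * S)) ≤ Z) :
    0 < D * (S * n ^ 2) + D * X + (S * Y + Z) := by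
  have hprod : 0 < D * S := mul_pos hD hS
  have d1 : κ ^ 2 ≤ n ^ 2 := pow_le_pow_left₀ hκ.le hn 2
  have d2 : D * S * κ ^ 2 ≤ D * (S * n ^ 2) := by
    rw [← mul_assoc]; exact mul_le_mul_of_nonneg_left d1 hprod.le
  have d3 : D * -(1 / 2 * (η * S)) ≤ D * X := mul_le_mul_of_nonneg_left c1 hD.le
  have d4 : S * -(η * D * (1 / 2)) ≤ S * Y := mul_le_mul_of_nonneg_left c2 hS.le
  have hη3 : η ≤ 1 := by nlinarith
  have hη4 : η ^ 2 ≤ η := by nlinarith
  have hη5 : 0 < κ ^ 2 - η - η ^ 2 := by nlinarith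
  have d5 : 0 < D * S * (κ ^ 2 - η - η ^ 2) := mul_pos hprod hη5
  have d6 : D * S * (κ ^ 2 - η - η ^ 2) = D * S * κ ^ 2 + D * -(1 / 2 * (η * S)) +
      (S * -(η * D * (1 / 2)) + -(η * D * (η * S))) := by ring
  linarith

theorem t_RAD : S_RAD.{u} := by
  intro d M _ g p A A' e φ ψ R hM hAA hA'
  -- lower bound for A'
  set κ : ℝ := 1 / (‖A‖ + 1) with hκ
  have hA0 : 0 ≤ ‖A‖ := norm_nonneg _
  have hκ0 : 0 < κ := by positivity
  have hκ1 : κ ≤ 1 := by rw [hκ, div_le_one (by linarith)]; linarith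
  have hlow : ∀ v : EE d, κ * ‖v‖ ≤ ‖A' v‖ := by
    intro v
    have h1 : A (A' v) = v := by
      have := congrArg (fun f : EE d →L[ℝ] EE d => f v) hAA
      simpa using this
    have h2 : ‖v‖ ≤ ‖A‖ * ‖A' v‖ := by
      calc ‖v‖ = ‖A (A' v)‖ := by rw [h1]
        _ ≤ _ := A.le_opNorm _
    have h3 : ‖v‖ ≤ (‖A‖ + 1) * ‖A' v‖ := by nlinarith [norm_nonneg (A' v)]
    rw [hκ, one_div, inv_mul_le_iff₀ (by linarith)]
    exact h3
  set η : ℝ := min (1 / 2 - ‖A'‖) (κ ^ 2 / 4) with hη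
  have hη0 : 0 < η := lt_min (by linarith) (by positivity)
  have hη1 : η ≤ 1 / 2 - ‖A'‖ := min_le_left _ _
  have hη2 : η ≤ κ ^ 2 / 4 := min_le_right _ _
  have hη3 : η ≤ κ / 4 := by nlinarith
  -- strict differentiability
  have hs : HasStrictFDerivAt ψ A' 0 := by
    have := hM.s1.hasStrictFDerivAt (by norm_num)
    rwa [hM.s2.fderiv] at this
  have hev : ∀ᶠ z : EE d × EE d in 𝓝 ((0 : EE d), (0 : EE d)),
      ‖ψ z.1 - ψ z.2 - A' (z.1 - z.2)‖ ≤ η * ‖z.1 - z.2‖ :=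
    (hasStrictFDerivAt_iff_isLittleO.1 hs).def hη0
  obtain ⟨r1, hr1, hb1⟩ := Metric.eventually_nhds_iff_ball.1 hev
  obtain ⟨r2, hr2, hb2⟩ := Metric.eventually_nhds_iff_ball.1 hM.es
  set R' : ℝ := min (R) (min (r1 / 2) (r2 / 2)) with hR'
  have hR'0 : 0 < R' := lt_min hM.R0 (lt_min (by linarith) (by linarith))
  have hR'1 : R' ≤ R := min_le_left _ _
  have hR'2 : R' < r1 := lt_of_le_of_lt ((min_le_right _ _).trans (min_le_left _ _)) (by linarith)
  have hR'3 : R' < r2 := lt_of_le_of_lt ((min_le_right _ _).trans (min_le_right _ _)) (by linarith)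
  have hest : ∀ x ∈ closedBall (0 : EE d) R', ∀ y ∈ closedBall (0 : EE d) R',
      ‖ψ x - ψ y - A' (x - y)‖ ≤ η * ‖x - y‖ := by
    intro x hx y hy
    refine hb1 (x, y) ?_
    rw [mem_ball, Prod.dist_eq, max_lt_iff]
    exact ⟨lt_of_le_of_lt hx hR'2, lt_of_le_of_lt hy hR'2⟩
  have h0mem : (0 : EE d) ∈ closedBall (0 : EE d) R' := mem_closedBall_self hR'0.le
  have hest0 : ∀ x ∈ closedBall (0 : EE d) R', ‖ψ x - A' x‖ ≤ η * ‖x‖ := by
    intro x hx
    have := hest x hx 0 h0mem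
    rwa [hM.s0, sub_zero, sub_zero] at this
  have hsub : closedBall (0 : EE d) R' ⊆ closedBall 0 R := closedBall_subset_closedBall hR'1
  refine ⟨R', κ / 2, hR'0, by positivity, hM.ec.mono hsub, hM.ei.mono hsub,
    fun O hO hO2 => hM.eo O (hO.trans (ball_subset_ball hR'1)) hO2, hM.ep, ?_, ?_, ?_, ?_, ?_⟩
  · -- continuity
    have hL : LipschitzOnWith (Real.toNNReal (‖A'‖ + η)) ψ (closedBall (0 : EE d) R') := by
      refine LipschitzOnWith.of_dist_le_mul fun x hx y hy => ?_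
      rw [Real.coe_toNNReal _ (by positivity), dist_eq_norm, dist_eq_norm]
      have h1 := hest x hx y hy
      have h2 : ψ x - ψ y = (ψ x - ψ y - A' (x - y)) + A' (x - y) := by abel
      calc ‖ψ x - ψ y‖ = ‖(ψ x - ψ y - A' (x - y)) + A' (x - y)‖ := by rw [← h2]
        _ ≤ ‖ψ x - ψ y - A' (x - y)‖ + ‖A' (x - y)‖ := norm_add_le _ _
        _ ≤ η * ‖x - y‖ + ‖A'‖ * ‖x - y‖ := add_le_add h1 (A'.le_opNorm _)
        _ = (‖A'‖ + η) * ‖x - y‖ := by ring
    exact hL.continuousOn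
  · intro z hz
    have h1 := hest0 z hz
    have h2 : ‖ψ z‖ ≤ ‖ψ z - A' z‖ + ‖A' z‖ := by
      have := norm_add_le (ψ z - A' z) (A' z)
      rwa [sub_add_cancel] at this
    have h3 := A'.le_opNorm z
    nlinarith [norm_nonneg z]
  · intro z hz
    have h1 := hest0 z hz
    have h2 : ‖A' z‖ ≤ ‖ψ z‖ + ‖ψ z - A' z‖ := by
      have := norm_sub_le (ψ z) (ψ z - A' z)
      rwa [sub_sub_cancel] at this
    have h3 := hlow z
    nlinarith [norm_nonneg z]
  · intro z hz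
    exact hb2 z (by rw [mem_ball]; exact lt_of_le_of_lt hz hR'3)
  · intro ξ hξ s hs s' hs' hlt
    simp only
    have hm : ∀ s ∈ Icc 0 R', s • ξ ∈ closedBall (0 : EE d) R' := by
      intro s hs
      rw [mem_closedBall_zero_iff, norm_smul, hξ, mul_one, Real.norm_of_nonneg hs.1]
      exact hs.2
    set a := A' ξ with ha
    have haL : κ ≤ ‖a‖ := by have := hlow ξ; rwa [hξ, mul_one] at this
    have haU : ‖a‖ ≤ 1 / 2 := by
      have := A'.le_opNorm ξ
      rw [hξ, mul_one] at this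
      linarith
    set E1 := ψ (s' • ξ) - ψ (s • ξ) - (s' - s) • a with hE1
    have hE1n : ‖E1‖ ≤ η * (s' - s) := by
      have := hest _ (hm s' hs') _ (hm s hs)
      rw [← sub_smul, map_smul, norm_smul (s' - s) ξ, hξ, mul_one,
        Real.norm_of_nonneg (by linarith)] at this
      exact this
    set E2 := ψ (s' • ξ) + ψ (s • ξ) - (s' + s) • a with hE2
    have hE2n : ‖E2‖ ≤ η * (s' + s) := by
      have h1 := hest0 _ (hm s' hs')
      have h2 := hest0 _ (hm s hs)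
      rw [map_smul, norm_smul s' ξ, hξ, mul_one, Real.norm_of_nonneg hs'.1] at h1
      rw [map_smul, norm_smul s ξ, hξ, mul_one, Real.norm_of_nonneg hs.1] at h2
      have h3 : E2 = (ψ (s' • ξ) - s' • a) + (ψ (s • ξ) - s • a) := by
        rw [hE2, add_smul]; abel
      rw [h3]
      refine (norm_add_le _ _).trans ?_
      linarith
    have hsum : 0 < s' + s := by linarith [hs.1]
    have hdif : 0 < s' - s := by linarith
    have hkey : ‖ψ (s' • ξ)‖ ^ 2 - ‖ψ (s • ξ)‖ ^ 2 =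
        inner ℝ (ψ (s' • ξ) - ψ (s • ξ)) (ψ (s' • ξ) + ψ (s • ξ)) := by
      rw [inner_sub_left, inner_add_right, inner_add_right, real_inner_self_eq_norm_sq,
        real_inner_self_eq_norm_sq, real_inner_comm (ψ (s' • ξ)) (ψ (s • ξ))]
      ring
    have e1 : ψ (s' • ξ) - ψ (s • ξ) = (s' - s) • a + E1 := by rw [hE1]; abel
    have e2 : ψ (s' • ξ) + ψ (s • ξ) = (s' + s) • a + E2 := by rw [hE2]; abel
    rw [e1, e2, inner_add_left, inner_add_right, inner_add_right, real_inner_smul_left,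
      real_inner_smul_right, real_inner_self_eq_norm_sq, real_inner_smul_left,
      real_inner_smul_right] at hkey
    have b1 : |inner ℝ a E2| ≤ ‖a‖ * ‖E2‖ := abs_real_inner_le_norm _ _
    have b2 : |inner ℝ E1 a| ≤ ‖E1‖ * ‖a‖ := abs_real_inner_le_norm _ _
    have b3 : |inner ℝ E1 E2| ≤ ‖E1‖ * ‖E2‖ := abs_real_inner_le_norm _ _
    have c1 : -(1 / 2 * (η * (s' + s))) ≤ inner ℝ a E2 := by
      have := (abs_le.1 b1).1
      nlinarith [norm_nonneg a, norm_nonneg E2]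
    have c2 : -(η * (s' - s) * (1 / 2)) ≤ inner ℝ E1 a := by
      have := (abs_le.1 b2).1
      nlinarith [norm_nonneg a, norm_nonneg E1]
    have c3 : -(η * (s' - s) * (η * (s' + s))) ≤ inner ℝ E1 E2 := by
      have := (abs_le.1 b3).1
      have h4 : ‖E1‖ * ‖E2‖ ≤ η * (s' - s) * (η * (s' + s)) :=
        mul_le_mul hE1n hE2n (norm_nonneg _) (by positivity)
      linarith
    have hpos : 0 < ‖ψ (s' • ξ)‖ ^ 2 - ‖ψ (s • ξ)‖ ^ 2 := by
      rw [hkey]
      exact aux (s' - s) (s' + s) κ η ‖a‖ _ _ _ hdif hsum hκ0 hκ1 hη0 hη2 haL c1 c2 c3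
    exact lt_of_pow_lt_pow_left₀ 2 (norm_nonneg _) (by linarith)

end Pool.Agent.Q25.MS
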