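import Pool.Agent.Q62.MS.Stm

set_option autoImplicit false

/-! Project MS, job RHO (helper25) -/

open Set Filter Topology Metric

universe u

namespace Pool.Agent.Q25.MS

open Pool.Agent.Q62.MS

theorem t_RHO : S_RHO.{u} := by
  intro d M _ g p e h R c hM r hr0 hr1
  have hmem : ∀ ξ : EE d, ‖ξ‖ = 1 → ∀ s ∈ Icc 0 R, s • ξ ∈ closedBall (0 : EE d) R := by
    intro ξ hξ s hs
    rw [mem_closedBall_zero_iff, norm_smul, hξ, mul_one, Real.norm_of_nonneg hs.1]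
    exact hs.2
  have hcont : ∀ ξ : EE d, ‖ξ‖ = 1 → ContinuousOn (fun s : ℝ => ‖h (s • ξ)‖) (Icc 0 R) := by
    intro ξ hξ
    refine (hM.hc.comp (t := closedBall 0 R) ?_ (hmem ξ hξ)).norm
    exact (continuous_id.smul continuous_const).continuousOn
  have hex : ∀ ξ : EE d, ∃ s : ℝ, ‖ξ‖ = 1 → s ∈ Icc 0 R ∧ ‖h (s • ξ)‖ = r := by
    intro ξ
    by_cases hξ : ‖ξ‖ = 1
    · have hivt := intermediate_value_Icc hM.R0.le (hcont ξ hξ)
      have h0 : ‖h ((0 : ℝ) • ξ)‖ ≤ r := by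
        have := hM.h2 ((0 : ℝ) • ξ) (hmem ξ hξ 0 ⟨le_rfl, hM.R0.le⟩)
        rw [zero_smul, norm_zero] at this
        rw [zero_smul]
        linarith
      have h1 : r ≤ ‖h (R • ξ)‖ := by
        have := hM.h1 (R • ξ) (hmem ξ hξ R ⟨hM.R0.le, le_rfl⟩)
        rw [norm_smul, hξ, mul_one, Real.norm_of_nonneg hM.R0.le] at this
        linarith
      obtain ⟨s, hs, hs2⟩ := hivt ⟨h0, h1⟩
      exact ⟨s, fun _ => ⟨hs, hs2⟩⟩
    · exact ⟨0, fun h => absurd h hξ⟩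
  choose ρ hρ using hex
  have hprop : ∀ ξ : EE d, ‖ξ‖ = 1 → r < ρ ξ ∧ ρ ξ < R ∧
      ‖h (ρ ξ • ξ)‖ = r ∧ ∀ s ∈ Icc 0 R, (‖h (s • ξ)‖ ≤ r ↔ s ≤ ρ ξ) := by
    intro ξ hξ
    obtain ⟨hs, hv⟩ := hρ ξ hξ
    have h1 := hM.h2 (ρ ξ • ξ) (hmem ξ hξ _ hs)
    rw [hv, norm_smul, hξ, mul_one, Real.norm_of_nonneg hs.1] at h1
    refine ⟨by linarith, lt_of_le_of_ne hs.2 ?_, hv, ?_⟩
    · intro e
      have h2 := hM.h1 (ρ ξ • ξ) (hmem ξ hξ _ hs)
      rw [hv, norm_smul, hξ, mul_one, Real.norm_of_nonneg hs.1, e] at h2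
      linarith
    · intro s hs'
      rw [← hv]
      exact (hM.mono ξ hξ).le_iff_le hs' hs
  refine ⟨ρ, ?_, hprop⟩
  intro ξ0 hξ0
  have hξ0' : ‖ξ0‖ = 1 := by simpa using hξ0
  obtain ⟨hr, hR, hv, hiff⟩ := hprop ξ0 hξ0'
  rw [Metric.continuousWithinAt_iff']
  intro ε hε
  -- two levels
  set s1 := max 0 (ρ ξ0 - ε / 2) with hs1
  set s2 := min R (ρ ξ0 + ε / 2) with hs2
  have hs1m : s1 ∈ Icc 0 R := ⟨le_max_left _ _, max_le hM.R0.le (by linarith)⟩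
  have hs2m : s2 ∈ Icc 0 R := ⟨le_min hM.R0.le (by linarith), min_le_left _ _⟩
  have hs1lt : s1 < ρ ξ0 := max_lt (by linarith) (by linarith)
  have hs2lt : ρ ξ0 < s2 := lt_min hR (by linarith)
  have hm := hM.mono ξ0 hξ0'
  have hρm := (hρ ξ0 hξ0').1
  have hl1 : ‖h (s1 • ξ0)‖ < r := by rw [← hv]; exact hm hs1m hρm hs1lt
  have hl2 : r < ‖h (s2 • ξ0)‖ := by rw [← hv]; exact hm hρm hs2m hs2lt
  have hcw : ∀ s ∈ Icc 0 R, ContinuousWithinAt (fun ξ : EE d => ‖h (s • ξ)‖) (sphere 0 1) ξ0 := by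
    intro s hs
    have h1 : ContinuousOn (fun ξ : EE d => h (s • ξ)) (sphere (0 : EE d) 1) := by
      have hc : Continuous (fun ξ : EE d => s • ξ) := continuous_const_smul s
      refine hM.hc.comp (t := closedBall 0 R) hc.continuousOn ?_
      intro ξ hξ
      exact hmem ξ (by simpa using hξ) s hs
    exact (h1 ξ0 hξ0).norm
  have e1 := (hcw s1 hs1m).eventually_lt_const hl1
  have e2 := (hcw s2 hs2m).eventually_const_lt hl2
  filter_upwards [e1, e2, self_mem_nhdsWithin] with ξ h1 h2 hξ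
  have hξ' : ‖ξ‖ = 1 := by simpa using hξ
  obtain ⟨_, _, _, hiff'⟩ := hprop ξ hξ'
  have h3 : s1 ≤ ρ ξ := (hiff' s1 hs1m).1 h1.le
  have h4 : ρ ξ < s2 := by
    by_contra hcon
    push Not at hcon
    have := (hiff' s2 hs2m).2 hcon
    linarith
  rw [Real.dist_eq, abs_lt]
  constructor
  · have : ρ ξ0 - ε / 2 ≤ s1 := le_max_right _ _
    linarith
  · have : s2 ≤ ρ ξ0 + ε / 2 := min_le_right _ _
    linarith

end Pool.Agent.Q25.MS
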